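import Pool.Agent.H7.WB.PR

/-!
# Web invariants on noncrossing polygons and weakly separated Pluecker coordinates multiply
-/

set_option autoImplicit false

namespace Pool.Agent.Results.MP_f2dd61_al.FusionTheorem

open Pool.Agent.H7.WB

/-- Let `T` be a list of triples of indices (repetitions allowed) which are pairwise weakly
separated, and `G` a list of pairs `(P, f)` of a set `P` of at least four indices and a web
invariant `f` on `P` (the web uses only the boundary vertices in `P`), the sets `P` being pairwise
noncrossing. If every triple of `T` is weakly separated from every three-element subset of every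
`P`, then the product of the Pluecker coordinates of the triples in `T` and of the functions `f` is a
web invariant. -/
theorem result (m : ℕ) (T : List (Fin m × Fin m × Fin m))
    (G : List (Finset (Fin m) × ((Fin m → Fin 3 → ℂ) → ℂ)))
    (h1 : ∀ t ∈ T, t.1 < t.2.1 ∧ t.2.1 < t.2.2)
    (h2 : ∀ s ∈ T, ∀ t ∈ T, WeaklySeparated ({s.1, s.2.1, s.2.2} : Finset (Fin m))
      {t.1, t.2.1, t.2.2})
    (h3 : ∀ g ∈ G, 4 ≤ g.1.card ∧ IsWebInvariantOn m g.1 g.2)
    (h4 : G.Pairwise fun g g' => NonCrossing g.1 g'.1)
    (h5 : ∀ g ∈ G, ∀ t ∈ T, ∀ I ⊆ g.1, I.card = 3 →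
      WeaklySeparated ({t.1, t.2.1, t.2.2} : Finset (Fin m)) I) :
    IsWebInvariant m (fun v => (T.map fun t => pluecker v t.1 t.2.1 t.2.2).prod *
      (G.map fun g => g.2 v).prod) :=
  fusion m T G h1 h2 h3 h4 h5

end Pool.Agent.Results.MP_f2dd61_al.FusionTheorem
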